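import Pool.Agent.Helper32.B4.St

/-!
# B4 (MP_7d58db_an), module ST: one slit step in Taylor coefficients
-/

set_option autoImplicit false

open Metric Set Filter Topology MeasureTheory
open scoped ComplexConjugate Interval

namespace Pool.Agent.Helper19.B4

open Pool.Agent.Helper32.B4 Pool.Agent.Helper32.DX Pool.Agent.Helper64.C3
open Pool.Agent.Helper39.QM

private theorem alg_ST {A A' h h' e z q U V : ℂ} (hA : A * h = U * z) (hA' : A' * h' = V * z)
    (hV : V = q * U) (hA0 : A ≠ 0) (hA0' : A' ≠ 0) (hV0 : V ≠ 0) (hz : z ≠ 0)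
    (hr : h' * (1 - e * h) ^ 2 = q * h * (1 - e * h') ^ 2) :
    A' = A - 2 * e * (U - V) * z + e ^ 2 * U * (z * h) - e ^ 2 * V * (z * h') := by
  have hqp : q * (A * h) = A' * h' := by
    rw [hA, hA', hV]
    ring
  have h1 : (A' * h') * (A' * (A - e * (A * h)) ^ 2 - A * (A' - e * (A' * h')) ^ 2) = 0 := by
    linear_combination (A ^ 2 * A' ^ 2) * hr + (A * (A' - e * (A' * h')) ^ 2) * hqp
  rw [hA, hA'] at h1
  have h2 : A' * (A - e * (U * z)) ^ 2 - A * (A' - e * (V * z)) ^ 2 = 0 := by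
    rcases mul_eq_zero.1 h1 with h3 | h3
    · exact absurd h3 (mul_ne_zero hV0 hz)
    · exact h3
  have h3 : (A * A') * (A' - (A - 2 * e * (U - V) * z + e ^ 2 * U * (z * h) -
      e ^ 2 * V * (z * h'))) = 0 := by
    linear_combination (-1) * h2 - (e ^ 2 * U * z * A') * hA + (e ^ 2 * V * z * A) * hA'
  rcases mul_eq_zero.1 h3 with h4 | h4
  · exact absurd h4 (mul_ne_zero hA0 hA0')
  · exact sub_eq_zero.1 h4

theorem hST : StST := by
  intro q u e H H' hq0 hq1 hu he hh hi hder hh' hi' hder' hrel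
  have huC : (u : ℂ) ≠ 0 := by exact_mod_cast hu.ne'
  have hVC : ((q * u : ℝ) : ℂ) ≠ 0 := by
    have : q * u ≠ 0 := (mul_pos hq0 hu).ne'
    exact_mod_cast this
  have h1 : deriv H 0 ≠ 0 := by rw [hder]; exact huC
  have h1' : deriv H' 0 ≠ 0 := by rw [hder']; exact hVC
  set V : ℂ := (q : ℂ) * u with hV
  have hVe : ((q * u : ℝ) : ℂ) = V := by rw [hV]; push_cast; ring
  rw [hVe] at hder' hVC
  have hA := AA_diff hh hi h1
  have hA' := AA_diff hh' hi' h1'
  have key : EqOn (AA H') (fun z => (AA H z - (2 * e * ((u : ℂ) - V)) * z +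
      (e ^ 2 * u) * (z * H z)) - (e ^ 2 * V) * (z * H' z)) (ball 0 1) := by
    intro z hz
    by_cases hz0 : z = 0
    · subst hz0
      simp only [AA_zero h1, AA_zero h1', mul_zero, zero_mul, sub_zero, add_zero]
    · have e1 := AA_mul hh hi h1 hz
      have e2 := AA_mul hh' hi' h1' hz
      rw [hder] at e1
      rw [hder'] at e2
      have a0 : AA H z ≠ 0 := by
        intro h0
        rw [h0, zero_mul] at e1
        exact mul_ne_zero huC hz0 e1.symm
      have a0' : AA H' z ≠ 0 := by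
        intro h0
        rw [h0, zero_mul] at e2
        exact mul_ne_zero hVC hz0 e2.symm
      exact alg_ST e1 e2 hV a0 a0' hVC hz0 (hrel z hz)
  have d1 : DifferentiableOn ℂ (fun z : ℂ => (2 * e * ((u : ℂ) - V)) * z) (ball 0 1) :=
    differentiableOn_id.const_mul _
  have d2 : DifferentiableOn ℂ (fun z : ℂ => z * H z) (ball 0 1) := differentiableOn_id.mul hh.1
  have d3 : DifferentiableOn ℂ (fun z : ℂ => z * H' z) (ball 0 1) := differentiableOn_id.mul hh'.1
  have d4 : DifferentiableOn ℂ (fun z : ℂ => AA H z - (2 * e * ((u : ℂ) - V)) * z)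
      (ball 0 1) := hA.sub d1
  have d5 : DifferentiableOn ℂ (fun z : ℂ => (e ^ 2 * u) * (z * H z)) (ball 0 1) :=
    d2.const_mul _
  have d6 : DifferentiableOn ℂ (fun z : ℂ => AA H z - (2 * e * ((u : ℂ) - V)) * z +
      (e ^ 2 * u) * (z * H z)) (ball 0 1) := d4.add d5
  have d7 : DifferentiableOn ℂ (fun z : ℂ => (e ^ 2 * V) * (z * H' z)) (ball 0 1) :=
    d3.const_mul _
  have cf : ∀ n : ℕ, ac (n + 1) H' = ac (n + 1) H -
      (if n + 1 = 1 then 2 * e * ((u : ℂ) - V) else 0) + (e ^ 2 * u) * coeff n H -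
      (e ^ 2 * V) * coeff n H' := by
    intro n
    have e1 := coeff_congr key (n + 1)
    rw [coeff_sub d6 d7, coeff_add d4 d5, coeff_sub hA d1, coeff_lin, coeff_cmul, coeff_cmul,
      coeff_zmul hh.1, coeff_zmul hh'.1] at e1
    exact e1
  obtain ⟨r2, -, -, -⟩ := ac_rel hh hi h1
  obtain ⟨r2', -, -, -⟩ := ac_rel hh' hi' h1'
  rw [hder] at r2
  rw [hder'] at r2'
  have w0 := coeff_zero_self hh
  have w0' := coeff_zero_self hh'
  have w1 : coeff 1 H = (u : ℂ) := by rw [coeff_one, hder]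
  have w1' : coeff 1 H' = V := by rw [coeff_one, hder']
  have c1 := cf 0
  have c2 := cf 1
  have c3 := cf 2
  norm_num at c1 c2 c3
  rw [w0, w0'] at c1
  rw [w1, w1'] at c2
  rw [r2, r2'] at c3
  refine ⟨?_, ?_, ?_⟩
  · linear_combination c1
  · linear_combination c2
  · linear_combination c3

end Pool.Agent.Helper19.B4
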